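import Mathlib

namespace Pool.Agent.Results.MP_4362c3_ag.Full

open MvPolynomial

lemma charp {L : Type*} [Field L] (p m : ℕ) [hp : Fact p.Prime] [CharP L p] (hm : m ≠ 0)
    (hd : m ∣ p - 1) (a : Fin m → MvPolynomial (Fin m) L) (b : MvPolynomial (Fin m) L)
    (hb : b ≠ 0) :
    b ^ 2 ≠ (∑ i, X i ^ m) * ∑ i, (pderiv i (a i) * b - a i * pderiv i b) := by
  classical
  intro h
  obtain ⟨q, hq⟩ : ∃ q, p = q + 2 := ⟨p - 2, by have := hp.out.two_le; omega⟩
  obtain ⟨r, hr⟩ := hd
  obtain ⟨F, hF⟩ : ∃ F : MvPolynomial (Fin m) L, F = ∑ i, X i ^ m := ⟨_, rfl⟩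
  rw [← hF] at h
  have hp0 : ((q : MvPolynomial (Fin m) L) + 2) = 0 := by
    have := CharP.cast_eq_zero (MvPolynomial (Fin m) L) p
    rw [hq] at this
    exact_mod_cast this
  have h1 : b ^ p * F ^ (p - 1) = ∑ i, pderiv i (F ^ p * a i * b ^ (p - 1)) := by
    have e : ∀ i, pderiv i (F ^ p * a i * b ^ (p - 1)) =
        F ^ (q + 2) * b ^ q * (pderiv i (a i) * b - a i * pderiv i b) := by
      intro i
      rw [show p - 1 = q + 1 by omega, hq]
      simp only [Derivation.leibniz, Derivation.leibniz_pow, smul_eq_mul, nsmul_eq_mul,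
        Nat.add_sub_cancel, show q + 2 - 1 = q + 1 from rfl]
      push_cast
      linear_combination (F ^ (q + 2) * a i * b ^ q * pderiv i b +
        b ^ (q + 1) * a i * F ^ (q + 1) * pderiv i F) * hp0
    simp only [e]
    rw [← Finset.mul_sum, show p - 1 = q + 1 by omega, hq]
    linear_combination (b ^ q * F ^ (q + 1)) * h
  obtain ⟨μ, hμ⟩ := b.support.exists_minimal (support_nonempty.2 hb)
  obtain ⟨R, hR⟩ : ∃ R : Fin m →₀ ℕ, ∀ i, R i = r :=
    ⟨Finsupp.equivFunOnFinite.symm (fun _ => r), fun _ => rfl⟩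
  have h2 := congrArg (coeff (p • μ + m • R)) h1
  rw [coeff_sum, Finset.sum_eq_zero (fun i _ => by
    rw [coeff_pderiv]
    have : (((p • μ + m • R) i : ℕ) : L) + 1 = 0 := by
      have e : (p • μ + m • R) i + 1 = p * (μ i + 1) := by
        simp only [Finsupp.add_apply, Finsupp.smul_apply, smul_eq_mul, hR, ← hr]
        rw [mul_add]; omega
      have := congrArg (Nat.cast : ℕ → L) e
      push_cast at this ⊢
      rw [this, CharP.cast_eq_zero L p, zero_mul]
    rw [this, mul_zero])] at h2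
  conv_lhs at h2 => rw [b.as_sum, sum_pow_char, Finset.sum_mul, coeff_sum]
  rw [Finset.sum_eq_single μ] at h2
  · rw [monomial_pow, coeff_monomial_mul] at h2
    have e : F ^ (p - 1) = expand m ((∑ i, X i) ^ (p - 1)) := by
      rw [hF, map_pow, map_sum]; simp
    have hs : R.sum (fun _ n => n) = p - 1 := by
      rw [Finsupp.sum_fintype _ _ (fun _ => rfl)]
      simp [hR, hr]
    rw [e, coeff_expand_smul _ hm, coeff_sum_X_pow_of_fintype, if_pos hs] at h2
    rcases mul_eq_zero.1 h2 with h3 | h3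
    · exact mem_support_iff.1 hμ.1 (pow_eq_zero_iff hp.out.ne_zero |>.1 h3)
    · rw [CharP.cast_eq_zero_iff L p, Finsupp.multinomial_eq] at h3
      have h4 := Nat.multinomial_spec R.support R
      have h5 : p ∣ (p - 1).factorial := by
        rw [← hs]
        exact h3.trans (Dvd.intro_left _ h4)
      rw [hp.out.dvd_factorial] at h5
      omega
  · intro ν hν hne
    rw [monomial_pow, coeff_monomial_mul', if_neg]
    intro hle
    apply hne
    have h3 : ν ≤ μ := by
      intro i
      have h4 := hle i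
      simp only [Finsupp.add_apply, Finsupp.smul_apply, smul_eq_mul, hR, ← hr] at h4
      by_contra h5
      have h6 : p * (μ i + 1) ≤ p * ν i := Nat.mul_le_mul_left _ (by omega)
      rw [mul_add] at h6
      omega
    exact le_antisymm h3 (hμ.2 hν h3)
  · intro h3; exact absurd hμ.1 h3

lemma nonunit {k : Type*} [Field k] [CharZero k] (S : Finset k) :
    ∃ N : ℕ, ∀ p : ℕ, p.Prime → N < p → ¬ IsUnit (p : Subring.closure (S : Set k)) := by
  classical
  let B := Algebra.adjoin ℚ (S : Set k)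
  haveI : Algebra.FiniteType ℚ B := (Subalgebra.fg_iff_finiteType _).1 ⟨S, rfl⟩
  obtain ⟨M, hM⟩ := Ideal.exists_maximal B
  letI : Field (B ⧸ M) := Ideal.Quotient.field M
  haveI : Module.Finite ℚ (B ⧸ M) := finite_of_finite_type_of_isJacobsonRing ℚ (B ⧸ M)
  have hle : Subring.closure (S : Set k) ≤ B.toSubring :=
    Subring.closure_le.2 Algebra.subset_adjoin
  obtain ⟨y, hy0, hy⟩ := exists_integral_multiples ℤ ℚ
    (S.attach.image (fun s : {x // x ∈ S} =>
      Ideal.Quotient.mk M (⟨s.1, Algebra.subset_adjoin s.2⟩ : B)))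
  have key : ∀ x (hx : x ∈ Subring.closure (S : Set k)),
      ∃ e : ℕ, IsIntegral ℤ ((y : B ⧸ M) ^ e * Ideal.Quotient.mk M ⟨x, hle hx⟩) := by
    have hyi : IsIntegral ℤ (y : B ⧸ M) := isIntegral_algebraMap (x := y)
    intro x hx
    induction hx using Subring.closure_induction with
    | mem x hx =>
      refine ⟨1, ?_⟩
      have := hy _ (Finset.mem_image.2 ⟨⟨x, hx⟩, Finset.mem_attach _ _, rfl⟩)
      simpa using this
    | zero => exact ⟨0, by
        have : (⟨0, hle (zero_mem _)⟩ : B) = 0 := rfl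
        rw [this, map_zero, mul_zero]; exact isIntegral_zero⟩
    | one => exact ⟨0, by
        have : (⟨1, hle (one_mem _)⟩ : B) = 1 := rfl
        rw [this, map_one, pow_zero, mul_one]; exact isIntegral_one⟩
    | add u v hu hv ihu ihv =>
      obtain ⟨e, he⟩ := ihu
      obtain ⟨f, hf⟩ := ihv
      refine ⟨e + f, ?_⟩
      have : (⟨u + v, hle (add_mem hu hv)⟩ : B) = ⟨u, hle hu⟩ + ⟨v, hle hv⟩ := rfl
      rw [this, map_add, mul_add]
      refine IsIntegral.add ?_ ?_
      · rw [add_comm e f, pow_add, mul_assoc]; exact (hyi.pow f).mul he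
      · rw [pow_add, mul_assoc]; exact (hyi.pow e).mul hf
    | neg u hu ihu =>
      obtain ⟨e, he⟩ := ihu
      refine ⟨e, ?_⟩
      have : (⟨-u, hle (neg_mem hu)⟩ : B) = -⟨u, hle hu⟩ := rfl
      rw [this, map_neg, mul_neg]
      exact he.neg
    | mul u v hu hv ihu ihv =>
      obtain ⟨e, he⟩ := ihu
      obtain ⟨f, hf⟩ := ihv
      refine ⟨e + f, ?_⟩
      have : (⟨u * v, hle (mul_mem hu hv)⟩ : B) = ⟨u, hle hu⟩ * ⟨v, hle hv⟩ := rfl
      rw [this, map_mul, pow_add, mul_mul_mul_comm]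
      exact he.mul hf
  refine ⟨y.natAbs, fun p hp hlt hu => ?_⟩
  obtain ⟨v, hv⟩ := hu.exists_right_inv
  obtain ⟨e, he⟩ := key v.1 v.2
  have hp0 : (p : ℚ) ≠ 0 := by exact_mod_cast hp.ne_zero
  have h1 : (p : B ⧸ M) * Ideal.Quotient.mk M ⟨v.1, hle v.2⟩ = 1 := by
    have : (p : B) * ⟨v.1, hle v.2⟩ = 1 := Subtype.ext (by simpa using congrArg Subtype.val hv)
    rw [← map_natCast (Ideal.Quotient.mk M), ← map_mul, this, map_one]
  have h2 : (y : B ⧸ M) ^ e * Ideal.Quotient.mk M ⟨v.1, hle v.2⟩ =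
      algebraMap ℚ (B ⧸ M) ((y : ℚ) ^ e / p) := by
    have h3 : algebraMap ℚ (B ⧸ M) ((p : ℚ)⁻¹) * (p : B ⧸ M) = 1 := by
      rw [← map_natCast (algebraMap ℚ (B ⧸ M)), ← map_mul, inv_mul_cancel₀ hp0, map_one]
    rw [div_eq_mul_inv, map_mul, map_pow, map_intCast]
    linear_combination (y : B ⧸ M) ^ e * algebraMap ℚ (B ⧸ M) ((p : ℚ)⁻¹) * h1 -
      (y : B ⧸ M) ^ e * Ideal.Quotient.mk M ⟨v.1, hle v.2⟩ * h3
  rw [h2, isIntegral_algebraMap_iff (algebraMap ℚ (B ⧸ M)).injective,
    IsIntegrallyClosed.isIntegral_iff] at he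
  obtain ⟨z, hz⟩ := he
  have h4 : (p : ℤ) ∣ y ^ e := ⟨z, by
    have : ((y : ℚ) ^ e) = p * z := by
      rw [eq_intCast] at hz
      rw [hz]; field_simp
    exact_mod_cast this⟩
  have h5 : p ∣ y.natAbs := Int.natCast_dvd.1 ((Nat.prime_iff_prime_int.1 hp).dvd_of_dvd_pow h4)
  exact absurd (Nat.le_of_dvd (Int.natAbs_pos.2 hy0) h5) (by omega)

lemma lift {k : Type*} [Field k] {m : ℕ} (A : Subring k) (f : MvPolynomial (Fin m) k)
    (hf : ∀ d, coeff d f ∈ A) : ∃ g : MvPolynomial (Fin m) A, map A.subtype g = f := by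
  refine ⟨∑ d ∈ f.support, monomial d ⟨coeff d f, hf d⟩, ?_⟩
  conv_rhs => rw [f.as_sum]
  simp [map_monomial]

lemma char0 {k : Type*} [Field k] [CharZero k] (m : ℕ) (hm : m ≠ 0)
    (a : Fin m → MvPolynomial (Fin m) k) (b : MvPolynomial (Fin m) k) (hb : b ≠ 0) :
    b ^ 2 ≠ (∑ i, X i ^ m) * ∑ i, (pderiv i (a i) * b - a i * pderiv i b) := by
  classical
  intro h
  obtain ⟨μ, hμ⟩ := ne_zero_iff.1 hb
  let S : Finset k := insert (coeff μ b)⁻¹ (b.support.image (fun d => coeff d b) ∪
    Finset.univ.biUnion (fun i => (a i).support.image (fun d => coeff d (a i))))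
  obtain ⟨N, hN⟩ := nonunit S
  obtain ⟨p, hp, hNp, hmod⟩ := Nat.exists_prime_gt_modEq_one N hm
  obtain ⟨M, hM, hpM⟩ := exists_max_ideal_of_mem_nonunits (hN p hp hNp)
  have hbm : ∀ d, coeff d b ∈ Subring.closure (S : Set k) := by
    intro d
    by_cases hd : d ∈ b.support
    · exact Subring.subset_closure (Finset.mem_coe.2 (Finset.mem_insert_of_mem
        (Finset.mem_union_left _ (Finset.mem_image.2 ⟨d, hd, rfl⟩))))
    · rw [notMem_support_iff.1 hd]; exact zero_mem _
  have ham : ∀ i d, coeff d (a i) ∈ Subring.closure (S : Set k) := by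
    intro i d
    by_cases hd : d ∈ (a i).support
    · exact Subring.subset_closure (Finset.mem_coe.2 (Finset.mem_insert_of_mem
        (Finset.mem_union_right _ (Finset.mem_biUnion.2
          ⟨i, Finset.mem_univ _, Finset.mem_image.2 ⟨d, hd, rfl⟩⟩))))
    · rw [notMem_support_iff.1 hd]; exact zero_mem _
  have him : (coeff μ b)⁻¹ ∈ Subring.closure (S : Set k) :=
    Subring.subset_closure (Finset.mem_coe.2 (Finset.mem_insert_self _ _))
  obtain ⟨b', hb'⟩ := lift _ b hbm
  choose a' ha' using fun i => lift _ (a i) (ham i)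
  have h' : b' ^ 2 = (∑ i, X i ^ m) * ∑ i, (pderiv i (a' i) * b' - a' i * pderiv i b') := by
    apply map_injective (Subring.closure (S : Set k)).subtype Subtype.val_injective
    simp only [map_pow, map_mul, map_sum, map_sub, map_X, ← pderiv_map, hb', ha']
    exact h
  letI := Ideal.Quotient.field M
  haveI : Fact p.Prime := ⟨hp⟩
  haveI : CharP (Subring.closure (S : Set k) ⧸ M) p := by
    rw [CharP.charP_iff_prime_eq_zero hp, ← map_natCast (Ideal.Quotient.mk M)]
    exact Ideal.Quotient.eq_zero_iff_mem.2 hpM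
  refine charp (L := Subring.closure (S : Set k) ⧸ M) p m hm
    ((Nat.modEq_iff_dvd' hp.one_le).1 hmod.symm) (fun i => map (Ideal.Quotient.mk M) (a' i))
    (map (Ideal.Quotient.mk M) b') ?_ ?_
  · intro h0
    have h1 := congrArg (coeff μ) h0
    rw [coeff_map, coeff_zero] at h1
    have h2 : coeff μ b' * ⟨_, him⟩ = 1 := by
      apply Subtype.ext
      have h3 := congrArg (coeff μ) hb'
      rw [coeff_map] at h3
      show (coeff μ b').1 * (coeff μ b)⁻¹ = 1
      rw [show (coeff μ b').1 = coeff μ b from h3, mul_inv_cancel₀ hμ]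
    have h4 := congrArg (Ideal.Quotient.mk M) h2
    rw [map_mul, h1, zero_mul, map_one] at h4
    exact zero_ne_one h4
  · have h1 := congrArg (map (Ideal.Quotient.mk M)) h'
    simpa only [map_pow, map_mul, map_sum, map_sub, map_X, ← pderiv_map] using h1

theorem main (k : Type) [Field k] [CharZero k] (m n : ℕ) (hm : 1 ≤ m) :
    (∃ a b : Fin m → MvPolynomial (Fin m) k, (∀ i, b i ≠ 0) ∧
      (algebraMap (MvPolynomial (Fin m) k) (FractionRing (MvPolynomial (Fin m) k))
        (∑ i, X i ^ n))⁻¹ =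
      ∑ i, algebraMap (MvPolynomial (Fin m) k) (FractionRing (MvPolynomial (Fin m) k))
          (pderiv i (a i) * b i - a i * pderiv i (b i)) /
        algebraMap (MvPolynomial (Fin m) k) (FractionRing (MvPolynomial (Fin m) k)) (b i) ^ 2) ↔
    n ≠ m := by
  classical
  have hinj := IsFractionRing.injective (MvPolynomial (Fin m) k)
    (FractionRing (MvPolynomial (Fin m) k))
  have hF : (∑ i, X i ^ n : MvPolynomial (Fin m) k) ≠ 0 := by
    intro h
    have := congrArg (eval (fun _ => (1 : k))) h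
    simp at this
    omega
  have hF' := (map_ne_zero_iff _ hinj).2 hF
  constructor
  · rintro ⟨a, b, hb, h⟩ rfl
    have hB : ∏ j, b j ≠ 0 := Finset.prod_ne_zero_iff.2 (fun j _ => hb j)
    refine char0 n (by omega) (fun i => a i * ∏ j ∈ Finset.univ.erase i, b j) (∏ j, b j) hB ?_
    apply hinj
    rw [map_mul, ← mul_one (algebraMap _ _ ((∏ j, b j) ^ 2)),
      ← mul_inv_cancel₀ hF', h, mul_left_comm, Finset.mul_sum]
    congr 1
    rw [map_sum]
    refine Finset.sum_congr rfl (fun i _ => ?_)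
    have hbi := (map_ne_zero_iff _ hinj).2 (hb i)
    rw [← Finset.mul_prod_erase Finset.univ b (Finset.mem_univ i)]
    generalize ∏ j ∈ Finset.univ.erase i, b j = c
    rw [← mul_div_assoc, div_eq_iff (pow_ne_zero _ hbi), ← map_pow, ← map_mul, ← map_mul]
    congr 1
    simp only [Derivation.leibniz, smul_eq_mul]
    ring
  · intro hn
    have hc : ((m : k) - n) ≠ 0 := sub_ne_zero.2 (by exact_mod_cast hn.symm)
    refine ⟨fun i => C ((m : k) - n)⁻¹ * X i, fun _ => ∑ i, X i ^ n, fun _ => hF, ?_⟩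
    rw [← Finset.sum_div, ← map_sum, eq_div_iff (pow_ne_zero _ hF'), sq,
      inv_mul_cancel_left₀ hF']
    congr 1
    have e : ∀ i : Fin m, X i * pderiv i (∑ j, X j ^ n : MvPolynomial (Fin m) k) =
        (n : MvPolynomial (Fin m) k) * X i ^ n := by
      intro i
      rw [map_sum, Finset.sum_eq_single i (fun j _ hj => by simp [pderiv_X, hj]) (by simp)]
      rcases n with _ | n
      · simp
      · rw [Derivation.leibniz_pow, pderiv_X_self, Nat.add_sub_cancel, smul_eq_mul, nsmul_eq_mul]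
        ring
    have h1 : (C ((m : k) - n)⁻¹ : MvPolynomial (Fin m) k) * ((m : MvPolynomial (Fin m) k) - n) =
        1 := by
      rw [← map_natCast C m, ← map_natCast C n, ← map_sub, ← map_mul, inv_mul_cancel₀ hc, map_one]
    simp only [pderiv_C_mul, pderiv_X_self, mul_one, mul_assoc, e]
    rw [Finset.sum_sub_distrib, ← Finset.mul_sum, ← Finset.mul_sum, ← Finset.mul_sum]
    simp only [Finset.sum_const, Finset.card_univ, Fintype.card_fin, nsmul_eq_mul]
    linear_combination (-(∑ j, X j ^ n)) * h1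

theorem result (k : Type) [Field k] [CharZero k] (m n : ℕ) (hm : 1 ≤ m) :
    ((∃ a b : Fin m → MvPolynomial (Fin m) k, (∀ i, b i ≠ 0) ∧
      (algebraMap (MvPolynomial (Fin m) k) (FractionRing (MvPolynomial (Fin m) k))
        (∑ i, X i ^ n))⁻¹ =
      ∑ i, algebraMap (MvPolynomial (Fin m) k) (FractionRing (MvPolynomial (Fin m) k))
          (pderiv i (a i) * b i - a i * pderiv i (b i)) /
        algebraMap (MvPolynomial (Fin m) k) (FractionRing (MvPolynomial (Fin m) k)) (b i) ^ 2) ↔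
      n ≠ m) ∧
    ∀ D : Fin m → Derivation k (FractionRing (MvPolynomial (Fin m) k))
        (FractionRing (MvPolynomial (Fin m) k)),
      (∀ i f, D i (algebraMap (MvPolynomial (Fin m) k) _ f) =
        algebraMap (MvPolynomial (Fin m) k) _ (pderiv i f)) →
      ((∃ u : Fin m → FractionRing (MvPolynomial (Fin m) k),
        (algebraMap (MvPolynomial (Fin m) k) (FractionRing (MvPolynomial (Fin m) k))
          (∑ i, X i ^ n))⁻¹ = ∑ i, D i (u i)) ↔ n ≠ m) := by
  refine ⟨main k m n hm, fun D hD => ?_⟩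
  have hinj := IsFractionRing.injective (MvPolynomial (Fin m) k)
    (FractionRing (MvPolynomial (Fin m) k))
  have key : ∀ i (a b : MvPolynomial (Fin m) k), b ≠ 0 →
      D i (algebraMap (MvPolynomial (Fin m) k) _ a / algebraMap (MvPolynomial (Fin m) k) _ b) =
      algebraMap (MvPolynomial (Fin m) k) (FractionRing (MvPolynomial (Fin m) k))
          (pderiv i a * b - a * pderiv i b) /
        algebraMap (MvPolynomial (Fin m) k) (FractionRing (MvPolynomial (Fin m) k)) b ^ 2 := by
    intro i a b hb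
    have hb' := (map_ne_zero_iff _ hinj).2 hb
    rw [Derivation.leibniz_div, hD, hD, map_sub, map_mul, map_mul]
    simp only [smul_eq_mul]
    field_simp
  rw [← main k m n hm]
  constructor
  · rintro ⟨u, hu⟩
    choose a b hb hab using fun i => IsFractionRing.div_surjective (MvPolynomial (Fin m) k) (u i)
    refine ⟨a, b, fun i => nonZeroDivisors.ne_zero (hb i), ?_⟩
    rw [hu]
    refine Finset.sum_congr rfl (fun i _ => ?_)
    rw [← hab i, key i _ _ (nonZeroDivisors.ne_zero (hb i))]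
  · rintro ⟨a, b, hb, h⟩
    refine ⟨fun i => algebraMap (MvPolynomial (Fin m) k) _ (a i) /
      algebraMap (MvPolynomial (Fin m) k) _ (b i), ?_⟩
    rw [h]
    exact Finset.sum_congr rfl (fun i _ => (key i _ _ (hb i)).symm)

end Pool.Agent.Results.MP_4362c3_ag.Full
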